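import Pool.Agent.TH362.TF.Multi
import Pool.Agent.TH362.TF.Contr
import Pool.Agent.TH362.TF.Cyc
import Pool.Agent.U881.LF.Main

/-!
# Graphs without an induced linear forest with nine vertices (MP_e6539c_co)

Let `F` be a linear forest (disjoint union of paths) with nine vertices and at least four edges,
two of them at the same vertex, which does not contain `2P_3 + P_2` as an induced subgraph.  Let `G`
be a finite multigraph without isthmuses which has no induced copy of `F`.  Then the edge set of `G`
is the union of two cycles, or a component of `G` can be contracted to the Petersen graph.  In
particular the edge set is the union of two cycles if there is no Petersen minor.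

There are 17 forests `F`: `P_9`, `P_8 + P_1`, `P_7 + 2P_1`, `P_6 + P_2 + P_1`, `P_6 + 3P_1`,
`P_5 + P_4`, `P_5 + P_3 + P_1`, `P_5 + 2P_2`, `P_5 + P_2 + 2P_1`, `P_5 + 4P_1`, `2P_4 + P_1`,
`P_4 + P_3 + 2P_1`, `P_4 + 2P_2 + P_1`, `P_4 + P_2 + 3P_1`, `2P_3 + 3P_1`, `P_3 + 3P_2`,
`P_3 + 2P_2 + 2P_1`.  The graphs without induced copies of a linear forest with at most eight
vertices and at least two edges, other than `2P_3 + P_2`, are special cases, because these forests are
contained in one of the 17 forests.  The exception is necessary: the graph which consists of two
Petersen graphs with a common edge has no induced copy of `2P_3 + P_2`, it has no nowhere-zero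
4-flow, and it cannot be contracted to the Petersen graph.

Proof.  Let `H` be obtained from `G` by contraction of disjoint connected vertex sets, without
nowhere-zero flow over the group of order four and without Petersen quotient, and with as few edges
(apart from loops) as possible.  By the starting library (`R140/PK/Lift`) `H` has no circuits with
at most four edges, all vertices with neighbours have at least three of them, at most one component
has edges apart from loops, and there are at least 18 vertices of odd degree.

(1) An induced linear forest of `H` gives one of `G` with the same components (`lift_forest`).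

(2) Every graph with these properties of `H` has an induced copy of `F`.  This is shown by a search
with lemmas (`U881/LF/Check`): an induced subgraph is extended by a new neighbour of a vertex which
has at most two neighbours so far, in all possible ways, until there is an induced copy of `F`, or
an induced subgraph for which it has been shown before that it does not occur.  The searches for the
17 forests depend on each other, and some of them start with seven vertices which are pairwise not
adjacent (`R545/IN/Ramsey`).  The certificates are checked by the kernel.
-/

set_option autoImplicit false

namespace Pool.Agent.Results.MP_e6539c_co.LinearForests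

open Pool.Agent.TH362.Multi

/-- Let `s t : E → V` be a finite multigraph without isthmuses.  Let `F` be a linear forest on the
vertices `0, ..., 8` (a spanning subgraph of the path `0, 1, ..., 8`) with at least four edges, two
of which have a common end, which has no induced subgraph `2P_3 + P_2` (with the vertices
`q 0, ..., q 7` and the edges `{q i, q (i + 1)}`, `i ∉ {2, 5}`).  If the multigraph has no induced
copy of `F` then the edge set is the union of two cycles, or some component can be contracted to the
Petersen graph. -/
theorem result (F : SimpleGraph (Fin 9)) (hF : F ≤ SimpleGraph.pathGraph 9)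
    (h4 : 4 ≤ F.edgeSet.ncard) (h3 : ∃ a b c, a ≠ c ∧ F.Adj a b ∧ F.Adj b c)
    (hq : ¬ ∃ q : Fin 8 → Fin 9, Function.Injective q ∧
      ∀ i j, i < j → (F.Adj (q i) (q j) ↔ (i.val + 1 = j.val ∧ i.val ≠ 2 ∧ i.val ≠ 5)))
    (V E : Type) [Finite V] [Finite E] (s t : E → V)
    (hb : ∀ e, ¬ Isthmus s t e)
    (hp : ¬ ∃ p : Fin 9 → V, Function.Injective p ∧ ∀ i j, i ≠ j →
      ((∃ e, (s e = p i ∧ t e = p j) ∨ (s e = p j ∧ t e = p i)) ↔ F.Adj i j)) :
    (∃ C₁ C₂ : Set E, IsCycle s t C₁ ∧ IsCycle s t C₂ ∧ C₁ ∪ C₂ = Set.univ) ∨
      ContractsToPetersen s t := by
  classical
  have := Fintype.ofFinite V
  have := Fintype.ofFinite E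
  have hn := TH362.TF.n1_of s t hb
  rcases U881.LF.main9 s t hn F hF h4 h3 hq hp with h | h
  · exact Or.inl (TH362.TF.two_cycles s t h)
  · exact Or.inr (TH362.TF.contracts s t hn h)

end Pool.Agent.Results.MP_e6539c_co.LinearForests
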