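import Pool.Agent.U875.TP.Class
import Pool.Agent.TH362.TF.Multi
import Pool.Agent.TH362.TF.Contr
import Pool.Agent.TH362.TF.Cyc
import Pool.Agent.U605.DD.Main

/-!
# Two cycles or a contraction to the Petersen graph: graphs without wide spread sets (MP_e6539c_co)

In a finite multigraph without isthmuses which satisfies the condition `NoWideSpread` (below) the edge
set is the union of two cycles, or some component can be contracted to the Petersen graph.

For integers `d ≥ 4` and `r` the radius of a vertex is `r` if it has at least `d` neighbours, otherwise
zero.  A set of vertices is spread if the distance of any two of them is greater than the sum of the
radii; it is wide if the distance of some two of them is greater than two plus the sum of the radii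
and for some five of them the pairwise distances are greater than one plus the sum of the radii.  The
condition `NoWideSpread`: for some `d ≥ 4` and `r` every circuit of the underlying simple graph with at
most `2 r` vertices contains a vertex with fewer than `d` neighbours (for `r = 1` there is no such
circuit), and no spread set with at least `18 - 6 / (d / 2 - 1)` vertices (12 for `d = 4`, 15 for
`d = 6`, 18 for `d ≥ 16`) is wide.

For example, all vertices have at least four neighbours, and
* the diameter is at most four, or
* there is a dominating set with at most eleven vertices, or
* there are fewer than sixty vertices, or
* of any five vertices two have distance at most three, or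
* the underlying simple graph has no circuit with at most `2 r` vertices, and its diameter is at most
  `2 r + 2` or it has fewer than `12 (2 * 3 ^ r - 1)` vertices.

Proof.  Let `H` be a quotient of `G` without nowhere-zero 4-flow and without Petersen quotient such
that all proper quotients of `H` have a flow.  The starting library shows that `H` has no circuit of
length at most four, 18 vertices of odd degree with degree sum at most 66, at least twelve vertices of
degree three, that `k ≥ 2` vertices of `H` span at most `2 k - 3` edges, and that five of any twelve
vertices are pairwise nonadjacent.  New here: two vertices of degree three have distance at least
three in `H` (if not, every vertex has at most three neighbours of degree three, and there are at most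
ten vertices of degree three); and a class with fewer than `d` boundary edges all vertices of which
have at least `d` neighbours contains the ball with radius `r` around some vertex (a vertex with
greatest distance to the boundary: two of its neighbours have the same nearest boundary vertex, and
this gives a circuit with at most `2 r` vertices).  The centres of such balls in the classes with fewer
than `d` boundary edges form a wide spread set of `G`.
So `G` has a nowhere-zero 4-flow, or ten classes of vertices form a Petersen graph
(`U875/TP`, `TH362/TF`).
-/

set_option autoImplicit false

namespace Pool.Agent.Results.MP_e6539c_co.SpreadSets

open Finset Pool.Agent.TH362.Multi Pool.Agent.U875.TP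
open Pool.Agent.U605.DD

/-- Let `s t : E → V` be a finite multigraph without isthmuses which satisfies the condition.
Then the edge set is the union of two cycles, or some component can be contracted to the Petersen
graph. -/
theorem result (V E : Type) [Fintype V] [DecidableEq V] [Fintype E] [DecidableEq E] (s t : E → V)
    (hb : ∀ e, ¬ Isthmus s t e) (h : NoWideSpread s t) :
    (∃ C₁ C₂ : Set E, IsCycle s t C₁ ∧ IsCycle s t C₂ ∧ C₁ ∪ C₂ = Set.univ) ∨
      ContractsToPetersen s t := by
  have h1 := TH362.TF.n1_of s t hb
  rcases noMq_flow (noMq_of_spread h) h1 with h2 | h2
  · exact Or.inl (TH362.TF.two_cycles s t h2)
  · exact Or.inr (TH362.TF.contracts s t h1 h2)

end Pool.Agent.Results.MP_e6539c_co.SpreadSets
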