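import Pool.Agent.U875.TP.Class
import Pool.Agent.TH362.TF.Multi
import Pool.Agent.TH362.TF.Contr
import Pool.Agent.TH362.TF.Cyc

/-!
# Two cycles or a contraction to the Petersen graph: tight partitions (MP_e6539c_co)

Let `G` be a finite multigraph without isthmuses which satisfies one of the following conditions.
Then the edge set is the union of two cycles, or some component can be contracted to the Petersen
graph.
* every quotient of `G` (vertices are identified) with at least 18 vertices of odd degree is reducible:
  it has a vertex of degree two (loops not counted), a triangle, a circuit of length four, a set of
  `k ≥ 2` vertices which spans at least `2 k - 2` edges, a cut with at most three edges and edges on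
  both sides, or a separating vertex;
* of three edges and a vertex always two are close: equal, with a common end, joined by an edge or by
  two different walks with two edges; for example if the underlying simple graph does not contain three
  edges and a vertex as an induced subgraph;
* of seven vertices always two are close; for example, the independence number is at most six;
* no nine edges are pairwise disjoint.

Proof.  Let `H` be a quotient of `G` without nowhere-zero 4-flow and without Petersen quotient such
that all proper quotients of `H` have a flow.  The starting library shows that `H` has at least 18
vertices of odd degree, no vertex with one or two edges, no circuit of length at most four, and that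
`k ≥ 2` vertices of `H` span at most `2 k - 3` edges.  New here: if a cut of `H` has at most three
edges then one side spans no edge (the flows of the two quotients in which one side is one vertex
agree on the cut up to an automorphism of the group), and `H` has no separating vertex; so `H` is not
reducible.  New as well: a graph with minimum degree at least three, at least 18 vertices and no
circuit of length at most four has three edges and a vertex which are pairwise far from each other
(`U875/TP/Edges.lean`): otherwise the maximum degree is three, and after the deletion of two far
edges and their neighbours an edge with its four neighbours remains.

-/

set_option autoImplicit false

namespace Pool.Agent.Results.MP_e6539c_co.TightPartitions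

open Finset Pool.Agent.TH362.Multi Pool.Agent.U875.TP

/-- One of the conditions holds: every quotient with at least 18 vertices with an odd number of
boundary edges is reducible, or of three edges (not loops) and a vertex always two are close, or of
seven different vertices always two are close, or no nine edges are pairwise disjoint. -/
def Condition {V E : Type} [Fintype V] [DecidableEq V] [Fintype E] [DecidableEq E]
    (s t : E → V) : Prop :=
  QuotientsReducible s t ∨ ThreeClose s t ∨ SevenClose s t ∨
    (∀ M : Finset E, IsMatching s t M → M.card ≤ 8)

/-- under each of the conditions no quotient is minimal -/
theorem noMq {V E : Type} [Fintype V] [DecidableEq V] [Fintype E] [DecidableEq E]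
    {s t : E → V} (h : Condition s t) : NoMq s t := by
  rcases h with h | h | h | h
  · exact noMq_of_quotients h
  · exact noMq_of_three h
  · exact noMq_of_seven h
  · exact noMq_of_matching h

/-- Let `s t : E → V` be a finite multigraph without isthmuses which satisfies one of the conditions.
Then the edge set is the union of two cycles, or some component can be contracted to the Petersen
graph. -/
theorem result (V E : Type) [Fintype V] [DecidableEq V] [Fintype E] [DecidableEq E] (s t : E → V)
    (hb : ∀ e, ¬ Isthmus s t e) (h : Condition s t) :
    (∃ C₁ C₂ : Set E, IsCycle s t C₁ ∧ IsCycle s t C₂ ∧ C₁ ∪ C₂ = Set.univ) ∨
      ContractsToPetersen s t := by
  have h1 := TH362.TF.n1_of s t hb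
  rcases noMq_flow (noMq h) h1 with h2 | h2
  · exact Or.inl (TH362.TF.two_cycles s t h2)
  · exact Or.inr (TH362.TF.contracts s t h1 h2)

end Pool.Agent.Results.MP_e6539c_co.TightPartitions
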